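import Pool.Agent.Results.MP_229e70_co.SmallAmplitude
import Mathlib.Combinatorics.SimpleGraph.CycleGraph

set_option autoImplicit false

/-!
The amplitude of the cycle with `m + 3` vertices as a combinatorial sum.
-/

namespace Pool.Agent.Y59.GA

open Finset SimpleGraph
open Pool.Agent.Results.MP_229e70_co.SmallAmplitude (omega IsHalf firstPreserving amplitude
  omega_smul)

/-- abstract darts of the cycle: `(v, true)` is `v → v + 1`, `(v, false)` is `v + 1 → v` -/
abbrev D (m : ℕ) : Type := Fin (m + 3) × Bool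

variable {m : ℕ}

/-- the source of a dart -/
def src (d : D m) : Fin (m + 3) := if d.2 then d.1 else d.1 + 1

/-- reversal of darts -/
def rev (d : D m) : D m := (d.1, !d.2)

theorem rev_rev (d : D m) : rev (rev d) = d := by
  obtain ⟨k, l⟩ := d
  cases l <;> rfl

theorem src_true (v : Fin (m + 3)) : src (v, true) = v := rfl

theorem src_false (v : Fin (m + 3)) : src (v, false) = v + 1 := rfl

theorem ne_succ (v : Fin (m + 3)) : v ≠ v + 1 := by
  intro h
  have h1 : (1 : Fin (m + 3)) = 0 := by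
    have := left_eq_add.1 h
    exact this
  have h2 := congrArg Fin.val h1
  rw [Fin.val_one, Fin.val_zero] at h2
  omega

theorem ne_succ_succ (v : Fin (m + 3)) : v ≠ v + 1 + 1 := by
  intro h
  rw [add_assoc] at h
  have h1 : (1 + 1 : Fin (m + 3)) = 0 := left_eq_add.1 h
  have h2 := congrArg Fin.val h1
  rw [Fin.val_add, Fin.val_one, Fin.val_zero, Nat.mod_eq_of_lt (by omega)] at h2
  omega

theorem cyc_adj (u v : Fin (m + 3)) :
    (cycleGraph (m + 3)).Adj u v ↔ ∃ d : D m, src d = u ∧ src (rev d) = v := by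
  rw [cycleGraph_adj]
  constructor
  · rintro (h | h)
    · exact ⟨(v, false), by rw [src_false, ← h]; abel, rfl⟩
    · exact ⟨(u, true), rfl, by show u + 1 = v; rw [← h]; abel⟩
  · rintro ⟨⟨k, l⟩, rfl, rfl⟩
    cases l
    · left
      show k + 1 - k = 1
      abel
    · right
      show k + 1 - k = 1
      abel

theorem src_pair_injective {d e : D m} (h1 : src d = src e)
    (h2 : src (rev d) = src (rev e)) : d = e := by
  obtain ⟨k, l⟩ := d
  obtain ⟨k', l'⟩ := e
  cases l <;> cases l'
  · have h3 : k = k' := h2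
    rw [h3]
  · have h3 : k + 1 = k' := h1
    have h4 : k = k' + 1 := h2
    rw [← h3] at h4
    exact absurd h4 (ne_succ_succ k)
  · have h3 : k = k' + 1 := h1
    have h4 : k + 1 = k' := h2
    rw [← h4] at h3
    exact absurd h3 (ne_succ_succ k)
  · have h3 : k = k' := h1
    rw [h3]

/-- the map from abstract darts to darts -/
def toDart (d : D m) : (cycleGraph (m + 3)).Dart :=
  ⟨(src d, src (rev d)), (cyc_adj _ _).2 ⟨d, rfl, rfl⟩⟩

theorem toDart_bijective : Function.Bijective (toDart (m := m)) := by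
  constructor
  · intro d e h
    have h' := congrArg SimpleGraph.Dart.toProd h
    simp only [toDart, Prod.mk.injEq] at h'
    exact src_pair_injective h'.1 h'.2
  · rintro ⟨⟨u, v⟩, h⟩
    obtain ⟨d, h1, h2⟩ := (cyc_adj _ _).1 h
    exact ⟨d, SimpleGraph.Dart.ext _ _ (Prod.ext h1 h2)⟩

/-- abstract darts are the darts -/
noncomputable def eqv : D m ≃ (cycleGraph (m + 3)).Dart := Equiv.ofBijective _ toDart_bijective

theorem eqv_fst (d : D m) : (eqv d).fst = src d := rfl

theorem eqv_snd (d : D m) : (eqv d).snd = src (rev d) := rfl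

theorem eqv_symm (d : D m) : (eqv d).symm = eqv (rev d) := by
  have h : src (rev (rev d)) = src d := by rw [rev_rev]
  refine SimpleGraph.Dart.ext _ _ (Prod.ext rfl ?_)
  exact h.symm

/-- permutations of the abstract darts preserving the source -/
def pres (m : ℕ) : Finset (Equiv.Perm (D m)) := univ.filter fun τ => ∀ d, src (τ d) = src d

/-- product over a half of the darts of an antisymmetric function -/
theorem prod_half (Δ : Finset (cycleGraph (m + 3)).Dart) (hΔ : IsHalf _ Δ)
    (f : (cycleGraph (m + 3)).Dart → ℂ) (hf : ∀ d, f d.symm = - f d) :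
    ∏ d ∈ Δ, f d =
      (∏ k : Fin (m + 3), (if eqv (k, true) ∈ Δ then (1 : ℂ) else -1)) *
      ∏ k : Fin (m + 3), f (eqv (k, true)) := by
  classical
  have h1 : ∏ d ∈ Δ, f d = ∏ d : (cycleGraph (m + 3)).Dart, if d ∈ Δ then f d else 1 := by
    rw [Finset.prod_ite_mem, Finset.univ_inter]
  rw [h1, ← Equiv.prod_comp eqv, Fintype.prod_prod_type, ← Finset.prod_mul_distrib]
  refine Finset.prod_congr rfl fun k _ => ?_
  rw [Fintype.prod_bool]
  have e1 : (eqv (k, true)).symm = eqv (k, false) := by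
    rw [eqv_symm]
    rfl
  rcases hΔ (eqv (k, true)) with ⟨ha, hb⟩ | ⟨ha, hb⟩
  · rw [e1] at hb
    rw [if_neg hb, if_pos ha, if_pos ha]
    ring
  · rw [e1] at hb
    rw [if_pos hb, if_neg ha, if_neg ha, ← e1, hf]
    ring

theorem sum_pres (F : Equiv.Perm (cycleGraph (m + 3)).Dart → ℂ) :
    ∑ σ ∈ firstPreserving (cycleGraph (m + 3)), F σ = ∑ τ ∈ pres m, F (eqv.permCongr τ) := by
  symm
  refine Finset.sum_bij (fun τ _ => eqv.permCongr τ) ?_ ?_ ?_ ?_
  · intro τ hτ
    rw [pres, mem_filter] at hτ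
    rw [firstPreserving, mem_filter]
    refine ⟨mem_univ _, fun d => ?_⟩
    obtain ⟨e, rfl⟩ := eqv.surjective d
    simp only [Equiv.permCongr_apply, Equiv.symm_apply_apply]
    rw [eqv_fst, eqv_fst]
    exact hτ.2 e
  · intro τ _ τ' _ h
    exact eqv.permCongr.injective h
  · intro σ hσ
    rw [firstPreserving, mem_filter] at hσ
    refine ⟨eqv.permCongr.symm σ, ?_, ?_⟩
    · rw [pres, mem_filter]
      refine ⟨mem_univ _, fun d => ?_⟩
      have := hσ.2 (eqv d)
      rw [eqv_fst] at this
      rw [← this, ← eqv_fst]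
      simp
    · exact eqv.permCongr.apply_symm_apply σ
  · intro τ _
    rfl

/-- the map on darts attached to bits `s` -/
def phi (s : Fin (m + 3) → Bool) : D m → D m
  | (v, true) => if s v then (v - 1, false) else (v, true)
  | (v, false) => if s (v + 1) then (v + 1, true) else (v, false)

theorem phi_phi (s : Fin (m + 3) → Bool) (d : D m) : phi s (phi s d) = d := by
  obtain ⟨v, l⟩ := d
  cases l
  · by_cases h : s (v + 1) = true <;> simp [phi, h]
  · by_cases h : s v = true <;> simp [phi, h]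

/-- the permutation of darts attached to bits -/
def Phi (s : Fin (m + 3) → Bool) : Equiv.Perm (D m) where
  toFun := phi s
  invFun := phi s
  left_inv := phi_phi s
  right_inv := phi_phi s

theorem Phi_mem (s : Fin (m + 3) → Bool) : Phi s ∈ pres m := by
  rw [pres, mem_filter]
  refine ⟨mem_univ _, ?_⟩
  rintro ⟨v, l⟩
  change src (phi s (v, l)) = _
  cases l
  · by_cases h : s (v + 1) = true <;> simp [phi, h, src]
  · by_cases h : s v = true <;> simp [phi, h, src]

theorem Phi_injective {s s' : Fin (m + 3) → Bool} (h : Phi s = Phi s') : s = s' := by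
  have h' : ∀ d, phi s d = phi s' d := fun d => congrArg (fun τ : Equiv.Perm (D m) => τ d) h
  funext v
  have e1 := h' (v, true)
  simp only [phi] at e1
  cases hb : s v <;> cases hb' : s' v <;> simp_all

theorem src_eq {d : D m} {v : Fin (m + 3)} (h : src d = v) :
    d = (v, true) ∨ d = (v - 1, false) := by
  obtain ⟨k, l⟩ := d
  cases l
  · right
    rw [src_false] at h
    rw [← h]
    simp
  · left
    rw [src_true] at h
    rw [h]

theorem Phi_surjective {τ : Equiv.Perm (D m)} (hτ : τ ∈ pres m) :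
    ∃ s : Fin (m + 3) → Bool, Phi s = τ := by
  rw [pres, mem_filter] at hτ
  have hs := hτ.2
  refine ⟨fun v => decide (τ (v, true) = (v - 1, false)), ?_⟩
  ext1 d
  obtain ⟨v, l⟩ := d
  change phi _ (v, l) = _
  cases l
  · have a1 := src_eq (d := τ (v + 1, true)) (v := v + 1) (by rw [hs]; rfl)
    have a2 := src_eq (d := τ (v, false)) (v := v + 1) (by rw [hs]; rfl)
    rw [add_sub_cancel_right] at a1 a2
    have n1 : τ (v + 1, true) ≠ τ (v, false) := fun h => by simpa using τ.injective h
    rcases a1 with h | h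
    · rcases a2 with h' | h'
      · exact absurd (h.trans h'.symm) n1
      · simp [phi, h, h']
    · rcases a2 with h' | h'
      · simp [phi, h, h']
      · exact absurd (h.trans h'.symm) n1
  · have a1 := src_eq (d := τ (v, true)) (v := v) (by rw [hs]; rfl)
    rcases a1 with h | h <;> simp [phi, h]

theorem sum_Phi (F : Equiv.Perm (D m) → ℂ) :
    ∑ τ ∈ pres m, F τ = ∑ s : Fin (m + 3) → Bool, F (Phi s) := by
  symm
  refine Finset.sum_bij (fun s _ => Phi s) ?_ ?_ ?_ ?_
  · intro q _
    exact Phi_mem _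
  · intro q _ q' _ h
    exact Phi_injective h
  · intro τ hτ
    obtain ⟨s, h⟩ := Phi_surjective hτ
    exact ⟨s, mem_univ _, h⟩
  · intro q _
    rfl

/-- the product over the edges -/
noncomputable def Q (a : D m → Fin 2 → ℂ) (τ : Equiv.Perm (D m)) : ℂ :=
  ∏ k : Fin (m + 3), omega (a (τ (k, true))) (a (τ (k, false)))

theorem Q_smul (c : D m → ℂ) (a : D m → Fin 2 → ℂ) (τ : Equiv.Perm (D m)) :
    Q (fun d => c d • a d) τ = (∏ d, c d) * Q a τ := by
  have h1 : ∏ d, c d = ∏ k : Fin (m + 3), (c (τ (k, true)) * c (τ (k, false))) := by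
    rw [← Equiv.prod_comp τ, Fintype.prod_prod_type]
    refine Finset.prod_congr rfl fun k _ => ?_
    rw [Fintype.prod_bool]
  rw [h1, Q, Q, ← Finset.prod_mul_distrib]
  refine Finset.prod_congr rfl fun k _ => ?_
  simp only [omega_smul]

theorem Phi_false : (1 : Equiv.Perm (D m)) = Phi (fun _ => false) := by
  ext1 d
  obtain ⟨k, l⟩ := d
  cases l <;> rfl

/-- The amplitude as a sum over bits. -/
theorem amplitude_cyc (ψ : (cycleGraph (m + 3)).Dart → Fin 2 → ℂ) (a : D m → Fin 2 → ℂ)
    (c : D m → ℂ) (hc : ∀ d, c d ≠ 0) (hψ : ∀ d : D m, ψ (eqv d) = c d • a d)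
    (Δ : Finset (cycleGraph (m + 3)).Dart) (hΔ : IsHalf _ Δ) :
    amplitude (cycleGraph (m + 3)) ψ Δ =
      (∑ s : Fin (m + 3) → Bool, Q a (Phi s)) / Q a (Phi fun _ => false) := by
  classical
  have hfun : (fun d : D m => ψ (eqv d)) = fun d => c d • a d := funext hψ
  set ε : ℂ := ∏ k : Fin (m + 3), (if eqv (k, true) ∈ Δ then (1 : ℂ) else -1) with hε
  have hε0 : ε ≠ 0 := by
    rw [hε, Finset.prod_ne_zero_iff]
    intro k _
    split_ifs <;> simp
  have hterm : ∀ τ : Equiv.Perm (D m),
      ∏ d ∈ Δ, omega (ψ (eqv.permCongr τ d)) (ψ (eqv.permCongr τ d.symm)) =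
        ε * ((∏ d, c d) * Q a τ) := by
    intro τ
    rw [prod_half Δ hΔ (fun d => omega (ψ (eqv.permCongr τ d))
      (ψ (eqv.permCongr τ d.symm)))]
    · rw [← hε]
      congr 1
      rw [← Q_smul, ← hfun, Q]
      refine Finset.prod_congr rfl fun k _ => ?_
      have e : ∀ d, eqv.permCongr τ (eqv d) = eqv (τ d) := by
        intro d
        simp [Equiv.permCongr_apply]
      simp only [eqv_symm, rev, e, Bool.not_true]
    · intro d
      simp only [SimpleGraph.Dart.symm_symm, omega]
      ring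
  have hden : ∏ d ∈ Δ, omega (ψ d) (ψ d.symm) = ε * ((∏ d, c d) * Q a 1) := by
    rw [← hterm 1]
    refine Finset.prod_congr rfl fun d _ => ?_
    simp [Equiv.permCongr_apply]
  rw [amplitude, sum_pres, hden]
  simp only [hterm]
  rw [← Finset.mul_sum, ← Finset.mul_sum, sum_Phi, Phi_false]
  have hP : ∏ d, c d ≠ 0 := Finset.prod_ne_zero_iff.2 fun d _ => hc d
  rw [mul_div_mul_left _ _ hε0, mul_div_mul_left _ _ hP]

theorem half_exists : ∃ Δ : Finset (cycleGraph (m + 3)).Dart, IsHalf (cycleGraph (m + 3)) Δ := by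
  classical
  refine ⟨univ.filter fun d => (eqv.symm d).2 = true, fun d => ?_⟩
  obtain ⟨e, rfl⟩ := eqv.surjective d
  rw [eqv_symm]
  obtain ⟨k, l⟩ := e
  cases l <;> simp [rev]

/-! ### Path sums -/

/-- Sums over closed paths are traces. -/
theorem path_sum (K : Matrix Bool Bool ℝ) (n : ℕ) : ∀ b b' : Bool,
    ∑ t : Fin n → Bool, (∏ i : Fin n, K ((Fin.cons b t : Fin (n + 1) → Bool) i.castSucc)
      ((Fin.cons b t : Fin (n + 1) → Bool) i.succ)) *
        K ((Fin.cons b t : Fin (n + 1) → Bool) (Fin.last n)) b' = (K ^ (n + 1)) b b' := by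
  induction n with
  | zero =>
    intro b b'
    rw [Fintype.sum_unique]
    simp
  | succ n ih =>
    intro b b'
    rw [← Equiv.sum_comp (Fin.consEquiv (fun _ : Fin (n + 1) => Bool)), Fintype.sum_prod_type,
      pow_succ', Matrix.mul_apply]
    refine Finset.sum_congr rfl fun c _ => ?_
    rw [← ih c b', Finset.mul_sum]
    refine Finset.sum_congr rfl fun t _ => ?_
    rw [Fin.prod_univ_succ, ← mul_assoc]
    rfl

theorem cyc_sum (K : Matrix Bool Bool ℝ) (n : ℕ) :
    ∑ s : Fin (n + 1) → Bool, ∏ v : Fin (n + 1), K (s v) (s (v + 1)) = (K ^ (n + 1)).trace := by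
  rw [← Equiv.sum_comp (Fin.consEquiv (fun _ : Fin (n + 1) => Bool)), Fintype.sum_prod_type]
  unfold Matrix.trace Matrix.diag
  refine Finset.sum_congr rfl fun b _ => ?_
  rw [← path_sum K n b b]
  refine Finset.sum_congr rfl fun t _ => ?_
  rw [Fin.prod_univ_castSucc]
  congr 1
  · refine Finset.prod_congr rfl fun i _ => ?_
    rw [Fin.coeSucc_eq_succ]
    rfl
  · rw [Fin.last_add_one]
    rfl

end Pool.Agent.Y59.GA
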