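import Pool.Agent.Y59.GA.Comb

set_option autoImplicit false

/-!
Regular polygons: spinors and the amplitude.
-/

namespace Pool.Agent.Y59.GA

open Finset SimpleGraph Real
open Pool.Agent.Results.MP_229e70_co.SmallAmplitude

/-- the regular polygon with `n` vertices, in the `(x, z)`-plane -/
noncomputable def polygon (n : ℕ) (v : Fin n) : E3 :=
  !₂[cos (2 * π * v / n), 0, sin (2 * π * v / n)]

variable {m : ℕ}

/-- half the central angle -/
noncomputable def hh (m : ℕ) : ℝ := π / ((m + 3 : ℕ) : ℝ)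

theorem hh_mul (m : ℕ) : hh m * ((m : ℝ) + 3) = π := by
  unfold hh
  push_cast
  field_simp

/-- half the angle of the direction of the edge `v → v + 1` -/
noncomputable def al (v : Fin (m + 3)) : ℝ := -(((v : ℕ) : ℝ) + 1 / 2) * hh m

/-- the real spinors of the darts -/
noncomputable def sR (d : D m) : ℝ × ℝ :=
  if d.2 then (cos (al d.1), sin (al d.1)) else (-sin (al d.1), cos (al d.1))

/-- complex spinors of the darts -/
noncomputable def sp (d : D m) : Fin 2 → ℂ := ![((sR d).1 : ℂ), ((sR d).2 : ℂ)]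

/-- the vector `(2pq, 0, p² - q²)` of the spinor `(p, q)` -/
noncomputable def vecR (a : ℝ × ℝ) : E3 := !₂[2 * a.1 * a.2, 0, a.1 ^ 2 - a.2 ^ 2]

theorem sR_norm (d : D m) : (sR d).1 ^ 2 + (sR d).2 ^ 2 = 1 := by
  obtain ⟨v, l⟩ := d
  cases l
  · show (-sin (al v)) ^ 2 + cos (al v) ^ 2 = 1
    have := sin_sq_add_cos_sq (al v)
    linarith
  · show cos (al v) ^ 2 + sin (al v) ^ 2 = 1
    have := sin_sq_add_cos_sq (al v)
    linarith

theorem vecR_sR_false (v : Fin (m + 3)) : vecR (sR (v, false)) = -vecR (sR (v, true)) := by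
  show vecR (-sin (al v), cos (al v)) = -vecR (cos (al v), sin (al v))
  ext i
  fin_cases i
  · simp [vecR]; ring
  · simp [vecR]
  · simp [vecR]

theorem norm_vecR {a : ℝ × ℝ} (ha : a.1 ^ 2 + a.2 ^ 2 = 1) : ‖vecR a‖ = 1 := by
  rw [vecR, EuclideanSpace.norm_eq, Fin.sum_univ_three]
  have h : ‖(!₂[2 * a.1 * a.2, 0, a.1 ^ 2 - a.2 ^ 2] : E3) 0‖ ^ 2 +
      ‖(!₂[2 * a.1 * a.2, 0, a.1 ^ 2 - a.2 ^ 2] : E3) 1‖ ^ 2 +
      ‖(!₂[2 * a.1 * a.2, 0, a.1 ^ 2 - a.2 ^ 2] : E3) 2‖ ^ 2 = (a.1 ^ 2 + a.2 ^ 2) ^ 2 := by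
    simp only [Real.norm_eq_abs, sq_abs]
    simp
    ring
  rw [h, ha]
  norm_num

theorem val_succ (v : Fin (m + 3)) :
    (((v + 1 : Fin (m + 3)) : ℕ) : ℝ) = v + 1 ∨
      ((v : ℕ) + 1 = m + 3 ∧ ((v + 1 : Fin (m + 3)) : ℕ) = 0) := by
  rcases Nat.lt_or_ge ((v : ℕ) + 1) (m + 3) with h | h
  · left
    rw [Fin.val_add, Fin.val_one, Nat.mod_eq_of_lt h]
    push_cast; ring
  · right
    have h1 : (v : ℕ) + 1 = m + 3 := by omega
    refine ⟨h1, ?_⟩
    rw [Fin.val_add, Fin.val_one, h1, Nat.mod_self]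

theorem poly_succ (v : Fin (m + 3)) : polygon (m + 3) (v + 1) =
    !₂[cos (2 * (((v : ℕ) : ℝ) + 1) * hh m), 0, sin (2 * (((v : ℕ) : ℝ) + 1) * hh m)] := by
  have key : ∀ x : ℝ, 2 * π * x / ((m + 3 : ℕ) : ℝ) = 2 * x * hh m := by
    intro x
    unfold hh
    ring
  unfold polygon
  rw [key]
  rcases val_succ v with h | ⟨h1, h2⟩
  · rw [h]
  · rw [h2]
    have e1 : (((v : ℕ) : ℝ) + 1) = (m : ℝ) + 3 := by exact_mod_cast h1
    have e2 : 2 * (((v : ℕ) : ℝ) + 1) * hh m = 2 * π := by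
      rw [e1, mul_assoc, mul_comm ((m : ℝ) + 3), hh_mul]
    rw [e2, cos_two_pi, sin_two_pi]
    simp

theorem poly_self (v : Fin (m + 3)) : polygon (m + 3) v =
    !₂[cos (2 * ((v : ℕ) : ℝ) * hh m), 0, sin (2 * ((v : ℕ) : ℝ) * hh m)] := by
  have key : ∀ x : ℝ, 2 * π * x / ((m + 3 : ℕ) : ℝ) = 2 * x * hh m := by
    intro x
    unfold hh
    ring
  unfold polygon
  rw [key]

theorem poly_sub (v : Fin (m + 3)) : polygon (m + 3) (v + 1) - polygon (m + 3) v =
    (2 * sin (hh m)) • vecR (sR (v, true)) := by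
  rw [poly_succ, poly_self]
  set t := 2 * ((v : ℕ) : ℝ) * hh m + hh m with ht
  have e1 : 2 * (((v : ℕ) : ℝ) + 1) * hh m = t + hh m := by rw [ht]; ring
  have e2 : 2 * ((v : ℕ) : ℝ) * hh m = t - hh m := by rw [ht]; ring
  have e3 : 2 * al v = -t := by rw [ht, al]; ring
  have e4 : vecR (sR (v, true)) = !₂[-sin t, 0, cos t] := by
    show vecR (cos (al v), sin (al v)) = _
    unfold vecR
    have h1 : 2 * cos (al v) * sin (al v) = -sin t := by
      rw [← sin_neg, ← e3, sin_two_mul]; ring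
    have h2 : cos (al v) ^ 2 - sin (al v) ^ 2 = cos t := by
      rw [← cos_neg t, ← e3, cos_two_mul']
    simp only [h1, h2]
  rw [e1, e2, e4]
  ext i
  fin_cases i
  · simp
    rw [cos_add, cos_sub]; ring
  · simp
  · simp
    rw [sin_add, sin_sub]; ring

theorem hh_pos (m : ℕ) : 0 < hh m := by
  unfold hh
  exact div_pos pi_pos (by positivity)

theorem hh_lt (m : ℕ) : hh m < π := by
  unfold hh
  rw [div_lt_iff₀ (by positivity)]
  have : (3 : ℝ) ≤ ((m + 3 : ℕ) : ℝ) := by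
    push_cast
    have : (0 : ℝ) ≤ m := Nat.cast_nonneg m
    linarith
  nlinarith [pi_pos]

theorem sin_hh_pos (m : ℕ) : 0 < sin (hh m) := sin_pos_of_pos_of_lt_pi (hh_pos m) (hh_lt m)

theorem dart_sub (d : D m) : polygon (m + 3) (src (rev d)) - polygon (m + 3) (src d) =
    (2 * sin (hh m)) • vecR (sR d) := by
  obtain ⟨v, l⟩ := d
  cases l
  · rw [vecR_sR_false, smul_neg, ← poly_sub]
    show polygon (m + 3) v - polygon (m + 3) (v + 1) = _
    abel
  · exact poly_sub v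

theorem unitDir_poly (d : D m) : unitDir (polygon (m + 3)) (src d) (src (rev d)) =
    vecR (sR d) := by
  have hl := sin_hh_pos m
  rw [unitDir, dart_sub, norm_smul, norm_vecR (sR_norm d), smul_smul,
    Real.norm_of_nonneg (by positivity)]
  rw [mul_one, one_div, inv_mul_cancel₀ (by positivity), one_smul]

theorem poly_admissible : Admissible (cycleGraph (m + 3)) (polygon (m + 3)) := by
  intro i j hij h
  obtain ⟨d, rfl, rfl⟩ := (cyc_adj _ _).1 hij
  have h1 := dart_sub d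
  have hl := sin_hh_pos m
  rw [h, sub_self] at h1
  have h2 := norm_vecR (sR_norm d)
  rcases smul_eq_zero.1 h1.symm with h4 | h4
  · linarith
  · rw [h4, norm_zero] at h2
    exact zero_ne_one h2

theorem spinor_formR (a : ℝ × ℝ) (ha : a.1 ^ 2 + a.2 ^ 2 = 1) (ψ : Fin 2 → ℂ)
    (h : IsUnitSpinor (vecR a) ψ) :
    ∃ c : ℂ, c ≠ 0 ∧ ψ = c • (![(a.1 : ℂ), (a.2 : ℂ)] : Fin 2 → ℂ) := by
  obtain ⟨h1, h2⟩ := h
  suffices hs : ∃ c : ℂ, ψ = c • (![(a.1 : ℂ), (a.2 : ℂ)] : Fin 2 → ℂ) by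
    obtain ⟨c, hc⟩ := hs
    refine ⟨c, ?_, hc⟩
    rintro rfl
    rw [hc] at h1
    simp at h1
  obtain ⟨p, q⟩ := a
  have hN : ((p : ℂ) ^ 2 + (q : ℂ) ^ 2) = 1 := by
    have : (((p : ℝ) ^ 2 + (q : ℝ) ^ 2 : ℝ) : ℂ) = 1 := by
      exact_mod_cast ha
    push_cast at this
    exact this
  have e0 := congrFun h2 0
  have e1 := congrFun h2 1
  simp only [dotSigma, pauli1, pauli2, pauli3, Matrix.mulVec, dotProduct, Fin.sum_univ_two,
    Matrix.add_apply, Matrix.smul_apply, smul_eq_mul] at e0 e1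
  simp [vecR] at e0 e1
  refine ⟨(p : ℂ) * ψ 0 + q * ψ 1, ?_⟩
  ext i
  fin_cases i
  · simp
    linear_combination (-1 / 2 : ℂ) * e0 - (1 / 2 : ℂ) * ψ 0 * hN
  · simp
    linear_combination (-1 / 2 : ℂ) * e1 - (1 / 2 : ℂ) * ψ 1 * hN

theorem spinor_existsR (a : ℝ × ℝ) (ha : a.1 ^ 2 + a.2 ^ 2 = 1) :
    IsUnitSpinor (vecR a) (![(a.1 : ℂ), (a.2 : ℂ)] : Fin 2 → ℂ) := by
  obtain ⟨p, q⟩ := a
  have ha' : p ^ 2 + q ^ 2 = 1 := ha
  have hN : ((p : ℂ) ^ 2 + (q : ℂ) ^ 2) = 1 := by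
    have : (((p : ℝ) ^ 2 + (q : ℝ) ^ 2 : ℝ) : ℂ) = 1 := by
      exact_mod_cast ha'
    push_cast at this
    exact this
  refine ⟨?_, ?_⟩
  · simp only [Matrix.cons_val_zero, Matrix.cons_val_one, Complex.norm_real,
      Real.norm_eq_abs, sq_abs]
    exact ha'
  · ext i
    simp only [dotSigma, pauli1, pauli2, pauli3, Matrix.mulVec, dotProduct, Fin.sum_univ_two,
      Matrix.add_apply, Matrix.smul_apply, smul_eq_mul]
    fin_cases i
    · simp [vecR]
      linear_combination (p : ℂ) * hN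
    · simp [vecR]
      linear_combination (q : ℂ) * hN

theorem spinorChoice_exists :
    ∃ ψ : (cycleGraph (m + 3)).Dart → Fin 2 → ℂ,
      IsSpinorChoice (cycleGraph (m + 3)) (polygon (m + 3)) ψ := by
  refine ⟨fun d => sp (eqv.symm d), ?_⟩
  intro d
  obtain ⟨e, rfl⟩ := eqv.surjective d
  rw [eqv_fst, eqv_snd, unitDir_poly]
  show IsUnitSpinor _ (sp (eqv.symm (eqv e)))
  rw [Equiv.symm_apply_apply]
  exact spinor_existsR _ (sR_norm e)

/-! ### The transfer matrix -/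

/-- the transfer matrix -/
noncomputable def KK (m : ℕ) : Matrix Bool Bool ℝ := fun b b' =>
  if b then (if b' then -cos (2 * hh m) else -sin (hh m)) else (if b' then -sin (hh m) else 1)

theorem omega_sp (d e : D m) : omega (sp d) (sp e) =
    (((sR d).1 * (sR e).2 - (sR d).2 * (sR e).1 : ℝ) : ℂ) := by
  simp [omega, sp]

/-- the half angle of a dart -/
noncomputable def ang (d : D m) : ℝ := if d.2 then al d.1 else al d.1 + π / 2

theorem sR_ang (d : D m) : sR d = (cos (ang d), sin (ang d)) := by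
  obtain ⟨v, l⟩ := d
  cases l
  · show (-sin (al v), cos (al v)) = (cos (al v + π / 2), sin (al v + π / 2))
    rw [cos_add_pi_div_two, sin_add_pi_div_two]
  · rfl

theorem omega_ang (d e : D m) : omega (sp d) (sp e) = ((sin (ang e - ang d) : ℝ) : ℂ) := by
  rw [omega_sp, sR_ang, sR_ang, sin_sub]
  congr 1
  ring

theorem al_succ (v : Fin (m + 3)) :
    (((v : ℕ) + 1 ≠ m + 3) ∧ al (v + 1) = al v - hh m) ∨
      ((v : ℕ) + 1 = m + 3 ∧ al (v + 1) = al v - hh m + π) := by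
  rcases Nat.lt_or_ge ((v : ℕ) + 1) (m + 3) with h | h
  · left
    refine ⟨by omega, ?_⟩
    have e : ((v + 1 : Fin (m + 3)) : ℕ) = v + 1 := by
      rw [Fin.val_add, Fin.val_one, Nat.mod_eq_of_lt h]
    unfold al
    rw [e]; push_cast; ring
  · right
    have h1 : (v : ℕ) + 1 = m + 3 := by omega
    refine ⟨h1, ?_⟩
    have e : ((v + 1 : Fin (m + 3)) : ℕ) = 0 := by
      rw [Fin.val_add, Fin.val_one, h1, Nat.mod_self]
    have e1 : ((v : ℕ) : ℝ) = (m : ℝ) + 2 := by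
      have : ((v : ℕ) : ℝ) + 1 = (m : ℝ) + 3 := by exact_mod_cast h1
      linarith
    have e2 := hh_mul m
    unfold al
    rw [e, e1]
    push_cast
    linarith

/-- the sign at the end of the numbering -/
noncomputable def sg (v : Fin (m + 3)) (b : Bool) : ℝ :=
  if (v : ℕ) + 1 = m + 3 ∧ b = true then -1 else 1

theorem sg_sq (v : Fin (m + 3)) (b : Bool) : sg v b * sg v b = 1 := by
  unfold sg
  split_ifs <;> norm_num

theorem omega_phi (s : Fin (m + 3) → Bool) (v : Fin (m + 3)) :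
    omega (sp (phi s (v, true))) (sp (phi s (v, false))) =
      ((sg v (s (v + 1)) * sg (v - 1) (s v) * KK m (s v) (s (v + 1)) : ℝ) : ℂ) := by
  rw [omega_ang]
  congr 1
  have hprev := al_succ (v - 1)
  rw [sub_add_cancel] at hprev
  have hnext := al_succ v
  have s1 : ∀ x : ℝ, sin (x + π) = -sin x := sin_add_pi
  have e1 : phi s (v, true) = if s v then (v - 1, false) else (v, true) := rfl
  have e2 : phi s (v, false) = if s (v + 1) then (v + 1, true) else (v, false) := rfl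
  rw [e1, e2]
  have a1 : ang ((v - 1, false) : D m) = al (v - 1) + π / 2 := rfl
  have a2 : ang ((v, true) : D m) = al v := rfl
  have a3 : ang ((v + 1, true) : D m) = al (v + 1) := rfl
  have a4 : ang ((v, false) : D m) = al v + π / 2 := rfl
  have hp : al (v - 1) = al v + hh m ∧ ¬ (((v - 1 : Fin (m + 3)) : ℕ) + 1 = m + 3) ∨
      al (v - 1) = al v + hh m - π ∧ ((v - 1 : Fin (m + 3)) : ℕ) + 1 = m + 3 := by
    rcases hprev with ⟨h1, h2⟩ | ⟨h1, h2⟩
    · left; exact ⟨by linarith, h1⟩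
    · right; exact ⟨by linarith, h1⟩
  have hn : al (v + 1) = al v - hh m ∧ ¬ ((v : ℕ) + 1 = m + 3) ∨
      al (v + 1) = al v - hh m + π ∧ (v : ℕ) + 1 = m + 3 := by
    rcases hnext with ⟨h1, h2⟩ | ⟨h1, h2⟩
    · left; exact ⟨h2, h1⟩
    · right; exact ⟨h2, h1⟩
  cases hb : s v <;> cases hb' : s (v + 1)
  · simp only [Bool.false_eq_true, if_false, a2, a4, sg, KK, and_false]
    rw [add_sub_cancel_left, sin_pi_div_two]; norm_num
  · simp only [Bool.false_eq_true, if_false, if_true, a2, a3, sg, KK, and_false, and_true]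
    rcases hn with ⟨h1, h2⟩ | ⟨h1, h2⟩
    · rw [h1, if_neg h2]
      have : al v - hh m - al v = -hh m := by ring
      rw [this, sin_neg]; ring
    · rw [h1, if_pos h2]
      have : al v - hh m + π - al v = -hh m + π := by ring
      rw [this, s1, sin_neg]; ring
  · simp only [Bool.false_eq_true, if_false, if_true, a1, a4, sg, KK, and_false, and_true]
    rcases hp with ⟨h1, h2⟩ | ⟨h1, h2⟩
    · rw [h1, if_neg h2]
      have : al v + π / 2 - (al v + hh m + π / 2) = -hh m := by ring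
      rw [this, sin_neg]; ring
    · rw [h1, if_pos h2]
      have : al v + π / 2 - (al v + hh m - π + π / 2) = -hh m + π := by ring
      rw [this, s1, sin_neg]; ring
  · simp only [if_true, a1, a3, sg, KK, and_true]
    have c1 : sin (-(2 * hh m) - π / 2) = -cos (2 * hh m) := by
      rw [sin_sub_pi_div_two, cos_neg]
    rcases hp with ⟨h1, h2⟩ | ⟨h1, h2⟩ <;> rcases hn with ⟨h3, h4⟩ | ⟨h3, h4⟩
    · rw [h1, h3, if_neg h2, if_neg h4]
      have : al v - hh m - (al v + hh m + π / 2) = -(2 * hh m) - π / 2 := by ring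
      rw [this, c1]; ring
    · rw [h1, h3, if_neg h2, if_pos h4]
      have : al v - hh m + π - (al v + hh m + π / 2) = (-(2 * hh m) - π / 2) + π := by ring
      rw [this, s1, c1]; ring
    · rw [h1, h3, if_pos h2, if_neg h4]
      have : al v - hh m - (al v + hh m - π + π / 2) = (-(2 * hh m) - π / 2) + π := by ring
      rw [this, s1, c1]; ring
    · rw [h1, h3, if_pos h2, if_pos h4]
      have : al v - hh m + π - (al v + hh m - π + π / 2) =
        ((-(2 * hh m) - π / 2) + π) + π := by ring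
      rw [this, s1, s1, c1]; ring

theorem Q_Phi (s : Fin (m + 3) → Bool) :
    Q sp (Phi s) = ((∏ v : Fin (m + 3), KK m (s v) (s (v + 1)) : ℝ) : ℂ) := by
  rw [Q]
  have e : ∀ d, Phi s d = phi s d := fun l => rfl
  simp only [e, omega_phi]
  rw [← Complex.ofReal_prod]
  congr 1
  rw [Finset.prod_mul_distrib, Finset.prod_mul_distrib]
  have h1 : ∏ v : Fin (m + 3), sg (v - 1) (s v) = ∏ v : Fin (m + 3), sg v (s (v + 1)) := by
    rw [← Equiv.prod_comp (Equiv.addRight (1 : Fin (m + 3)))]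
    refine Finset.prod_congr rfl fun v _ => ?_
    rw [Equiv.coe_addRight, add_sub_cancel_right]
  rw [h1, ← Finset.prod_mul_distrib]
  simp only [sg_sq, Finset.prod_const_one, one_mul]

/-- The amplitude of the regular polygon is the trace of a power of a matrix. -/
theorem amplitude_poly (ψ : (cycleGraph (m + 3)).Dart → Fin 2 → ℂ)
    (hψ : IsSpinorChoice (cycleGraph (m + 3)) (polygon (m + 3)) ψ)
    (Δ : Finset (cycleGraph (m + 3)).Dart) (hΔ : IsHalf _ Δ) :
    amplitude (cycleGraph (m + 3)) ψ Δ = (((KK m ^ (m + 3)).trace : ℝ) : ℂ) := by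
  have h : ∀ d : D m, ∃ c : ℂ, c ≠ 0 ∧ ψ (eqv d) = c • sp d := by
    intro d
    refine spinor_formR (sR d) (sR_norm d) _ ?_
    have := hψ (eqv d)
    rw [eqv_fst, eqv_snd, unitDir_poly] at this
    exact this
  choose c hc hcψ using h
  rw [amplitude_cyc ψ sp c hc hcψ Δ hΔ]
  simp only [Q_Phi]
  rw [← Complex.ofReal_sum, cyc_sum (KK m) (m + 2)]
  have h1 : ∏ v : Fin (m + 3), KK m false false = 1 := by
    have : KK m false false = 1 := rfl
    simp [this]
  rw [h1]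
  simp

/-! ### The value -/

/-- the sum of the squares of the sines -/
noncomputable def ss (m : ℕ) : ℝ := sin (hh m) ^ 2

/-- the square root in the eigenvalues -/
noncomputable def rr (m : ℕ) : ℝ := √(1 - ss m + ss m ^ 2)

theorem ss_nonneg (m : ℕ) : 0 ≤ ss m := sq_nonneg _

theorem ss_le (m : ℕ) : ss m ≤ 1 := by
  unfold ss
  have := sin_sq_add_cos_sq (hh m)
  nlinarith [sq_nonneg (cos (hh m))]

theorem rr_sq (m : ℕ) : rr m ^ 2 = 1 - ss m + ss m ^ 2 := by
  unfold rr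
  rw [Real.sq_sqrt]
  have := ss_le m
  nlinarith [sq_nonneg (ss m)]

theorem KK_sq (m : ℕ) : KK m ^ 2 = (2 * ss m) • KK m + (1 - ss m) • (1 : Matrix Bool Bool ℝ) := by
  have hc : cos (2 * hh m) = 1 - 2 * ss m := by
    unfold ss
    rw [cos_two_mul, cos_sq']; ring
  have hs : sin (hh m) * sin (hh m) = ss m := by unfold ss; ring
  ext b b'
  rw [pow_two, Matrix.mul_apply, Fintype.sum_bool, Matrix.add_apply, Matrix.smul_apply,
    Matrix.smul_apply, smul_eq_mul, smul_eq_mul]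
  cases b <;> cases b' <;> simp only [KK, hc, Matrix.one_apply] <;> simp <;> nlinarith [hs]

theorem trace_pow (m n : ℕ) : (KK m ^ n).trace = (ss m + rr m) ^ n + (ss m - rr m) ^ n := by
  have hr := rr_sq m
  have h1 : (ss m + rr m) ^ 2 = 2 * ss m * (ss m + rr m) + (1 - ss m) := by nlinarith
  have h2 : (ss m - rr m) ^ 2 = 2 * ss m * (ss m - rr m) + (1 - ss m) := by nlinarith
  induction n using Nat.strong_induction_on with
  | _ n ih =>
    match n, ih with
    | 0, _ =>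
      rw [pow_zero, Matrix.trace_one]
      simp
      norm_num
    | 1, _ =>
      rw [pow_one, pow_one, pow_one]
      unfold Matrix.trace Matrix.diag
      rw [Fintype.sum_bool]
      have hc : cos (2 * hh m) = 1 - 2 * ss m := by
        unfold ss
        rw [cos_two_mul, cos_sq']; ring
      simp only [KK, hc]
      simp
      ring
    | n + 2, ih =>
      have e1 := ih n (by omega)
      have e2 := ih (n + 1) (by omega)
      have e3 : KK m ^ (n + 2) = (2 * ss m) • KK m ^ (n + 1) + (1 - ss m) • KK m ^ n := by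
        rw [pow_add, KK_sq, mul_add, Matrix.mul_smul, Matrix.mul_smul, mul_one, ← pow_succ]
      have p1 : (ss m + rr m) ^ (n + 2) = (ss m + rr m) ^ n * (ss m + rr m) ^ 2 := by ring
      have p2 : (ss m - rr m) ^ (n + 2) = (ss m - rr m) ^ n * (ss m - rr m) ^ 2 := by ring
      rw [e3, Matrix.trace_add, Matrix.trace_smul, Matrix.trace_smul, e1, e2, smul_eq_mul,
        smul_eq_mul, p1, p2, h1, h2]
      ring

theorem pow_sub_le {a b : ℝ} (hb : 0 ≤ b) (hab : b ≤ a) (k : ℕ) :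
    a ^ (k + 1) - b ^ (k + 1) ≤ (k + 1) * (a - b) * a ^ k := by
  induction k with
  | zero => simp
  | succ k ih =>
    have h1 : a ^ (k + 1 + 1) - b ^ (k + 1 + 1) =
        a * (a ^ (k + 1) - b ^ (k + 1)) + (a - b) * b ^ (k + 1) := by ring
    have h2 : b ^ (k + 1) ≤ a ^ (k + 1) := pow_le_pow_left₀ hb hab _
    have h3 := mul_le_mul_of_nonneg_left ih (hb.trans hab)
    have h4 := mul_le_mul_of_nonneg_left h2 (sub_nonneg.2 hab)
    rw [h1]
    push_cast
    calc a * (a ^ (k + 1) - b ^ (k + 1)) + (a - b) * b ^ (k + 1)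
        ≤ a * ((k + 1) * (a - b) * a ^ k) + (a - b) * a ^ (k + 1) := add_le_add h3 h4
      _ = ((k : ℝ) + 1 + 1) * (a - b) * a ^ (k + 1) := by ring

theorem value_bound (m : ℕ) (hodd : Odd (m + 3)) :
    |(ss m + rr m) ^ (m + 3) + (ss m - rr m) ^ (m + 3)| ≤
      2 * π ^ 2 / ((m + 3 : ℕ) : ℝ) * exp (π ^ 2 / ((m + 3 : ℕ) : ℝ)) := by
  have hs0 := ss_nonneg m
  have hs1 := ss_le m
  have hr := rr_sq m
  have hr0 : 0 ≤ rr m := Real.sqrt_nonneg _
  have hr1 : rr m ≤ 1 := by nlinarith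
  have hrs : ss m ≤ rr m := by nlinarith
  have e1 : (ss m - rr m) ^ (m + 3) = -(rr m - ss m) ^ (m + 3) := by
    rw [← hodd.neg_pow, neg_sub]
  have e2 : (ss m + rr m) ^ (m + 3) + (ss m - rr m) ^ (m + 3) =
      (rr m + ss m) ^ (m + 3) - (rr m - ss m) ^ (m + 3) := by
    rw [e1]; ring
  have hb : 0 ≤ rr m - ss m := by linarith
  have hab : rr m - ss m ≤ rr m + ss m := by linarith
  have h1 : 0 ≤ (rr m + ss m) ^ (m + 3) - (rr m - ss m) ^ (m + 3) :=
    sub_nonneg.2 (pow_le_pow_left₀ hb hab _)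
  rw [e2, abs_of_nonneg h1]
  have h2 := pow_sub_le hb hab (m + 2)
  have hN : (0 : ℝ) < ((m + 3 : ℕ) : ℝ) := by positivity
  have hN' : ((m + 2 : ℕ) : ℝ) + 1 = ((m + 3 : ℕ) : ℝ) := by push_cast; ring
  have h3 : (rr m + ss m) ^ (m + 2) ≤ exp (((m + 3 : ℕ) : ℝ) * ss m) := by
    have a1 : rr m + ss m ≤ exp (ss m) := by
      have := Real.add_one_le_exp (ss m)
      linarith
    have a2 : (rr m + ss m) ^ (m + 2) ≤ exp (ss m) ^ (m + 2) :=
      pow_le_pow_left₀ (by linarith) a1 _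
    rw [← Real.exp_nat_mul] at a2
    refine a2.trans (Real.exp_le_exp.2 ?_)
    refine mul_le_mul_of_nonneg_right ?_ hs0
    exact_mod_cast (by omega : m + 2 ≤ m + 3)
  have h4 : ((m + 3 : ℕ) : ℝ) * ss m ≤ π ^ 2 / ((m + 3 : ℕ) : ℝ) := by
    have a1 : sin (hh m) ≤ hh m := Real.sin_le (hh_pos m).le
    have a2 : ss m ≤ hh m ^ 2 := by
      unfold ss
      exact pow_le_pow_left₀ (sin_hh_pos m).le a1 2
    have a3 : hh m ^ 2 = π ^ 2 / ((m + 3 : ℕ) : ℝ) ^ 2 := by
      unfold hh; rw [div_pow]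
    calc ((m + 3 : ℕ) : ℝ) * ss m ≤ ((m + 3 : ℕ) : ℝ) * (π ^ 2 / ((m + 3 : ℕ) : ℝ) ^ 2) := by
          rw [← a3]; exact mul_le_mul_of_nonneg_left a2 hN.le
      _ = π ^ 2 / ((m + 3 : ℕ) : ℝ) := by
          field_simp
  have h5 : 0 ≤ ((m + 3 : ℕ) : ℝ) * ss m := by positivity
  calc (rr m + ss m) ^ (m + 3) - (rr m - ss m) ^ (m + 3)
      ≤ (((m + 2 : ℕ) : ℝ) + 1) * ((rr m + ss m) - (rr m - ss m)) * (rr m + ss m) ^ (m + 2) := h2
    _ = 2 * (((m + 3 : ℕ) : ℝ) * ss m) * (rr m + ss m) ^ (m + 2) := by rw [hN']; ring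
    _ ≤ 2 * (((m + 3 : ℕ) : ℝ) * ss m) * exp (((m + 3 : ℕ) : ℝ) * ss m) :=
        mul_le_mul_of_nonneg_left h3 (by positivity)
    _ ≤ 2 * (π ^ 2 / ((m + 3 : ℕ) : ℝ)) * exp (π ^ 2 / ((m + 3 : ℕ) : ℝ)) := by
        apply mul_le_mul
        · linarith
        · exact Real.exp_le_exp.2 h4
        · exact (Real.exp_pos _).le
        · positivity
    _ = 2 * π ^ 2 / ((m + 3 : ℕ) : ℝ) * exp (π ^ 2 / ((m + 3 : ℕ) : ℝ)) := by ring

end Pool.Agent.Y59.GA
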